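import Mathlib

/-!
# Transitivity of p-conjugacy is not inherited from the variants

A semigroup with eight elements and with all products of three elements equal to zero.
-/

set_option autoImplicit false

namespace Pool.Agent.Results.MP_9df05e_al.NotInherited

universe u

/-- `T` has an identity element. -/
def HasIdentity (T : Type u) [Semigroup T] : Prop :=
  ∃ e : T, ∀ x : T, e * x = x ∧ x * e = x

/-- The monoid `T¹` is realised inside `WithOne T` (in which an identity is adjoined in all cases):
it consists of all elements if `T` has no identity, and of the elements of `T` if `T` has an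
identity. -/
def InT1 {T : Type u} [Semigroup T] (g : WithOne T) : Prop :=
  HasIdentity T → ∃ g' : T, g = (g' : WithOne T)

/-- `a` and `b` are p-conjugate: there are `u, v` in `T¹` with `a = u v` and `b = v u`. -/
def PConj {T : Type u} [Semigroup T] (a b : T) : Prop :=
  ∃ u v : WithOne T, InT1 u ∧ InT1 v ∧ (a : WithOne T) = u * v ∧ (b : WithOne T) = v * u

/-- p-conjugacy is transitive in the semigroup `T`. -/
def PTransitive (T : Type u) [Semigroup T] : Prop :=
  ∀ a b c : T, PConj a b → PConj b c → PConj a c

/-- The variant of `S` at `a`: the set `S` with the product `x ∘ y = x a y`. -/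
@[reducible] def variant (S : Type u) [Semigroup S] (a : S) : Semigroup S where
  mul x y := x * a * y
  mul_assoc x y z := by
    show x * a * y * a * z = x * a * (y * a * z)
    simp only [mul_assoc]

/-- multiplication table of the example: `1 * 2 = 5`, `2 * 1 = 6 = 3 * 4`, `4 * 3 = 7`, and all
other products are `0` -/
def tab (x y : Fin 8) : Fin 8 :=
  if x = 1 ∧ y = 2 then 5 else if x = 2 ∧ y = 1 then 6 else if x = 3 ∧ y = 4 then 6 else
    if x = 4 ∧ y = 3 then 7 else 0

/-- the set with eight elements -/
structure E where
  /-- the underlying number -/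
  val : Fin 8

theorem tab_assoc : ∀ x y z, tab (tab x y) z = tab x (tab y z) := by decide +kernel

theorem tab_zero : ∀ x y z, tab (tab x y) z = 0 := by decide +kernel

instance : Semigroup E where
  mul x y := ⟨tab x.val y.val⟩
  mul_assoc x y z := congrArg E.mk (tab_assoc x.val y.val z.val)

theorem eq_of_pConj {T : Type u} [Semigroup T] (c : T) (hc : ∀ x y : T, x * y = c) {x y : T}
    (h : PConj x y) : x = y := by
  obtain ⟨u, v, -, -, h1, h2⟩ := h
  cases u with
  | one =>
    rw [one_mul] at h1
    rw [mul_one] at h2
    exact WithOne.coe_injective (h1.trans h2.symm)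
  | coe u =>
    cases v with
    | one =>
      rw [mul_one] at h1
      rw [one_mul] at h2
      exact WithOne.coe_injective (h1.trans h2.symm)
    | coe v =>
      rw [← WithOne.coe_mul, WithOne.coe_inj] at h1 h2
      rw [h1, h2, hc, hc]

/-- There is a semigroup `S` (with eight elements) such that p-conjugacy is transitive in every
variant of `S`, but not in `S`. -/
theorem result : ∃ (S : Type) (_ : Semigroup S),
    (∀ a : S, @PTransitive S (variant S a)) ∧ ¬ PTransitive S := by
  refine ⟨E, inferInstance, fun a => ?_, ?_⟩
  · intro x y z hxy hyz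
    have key : ∀ x y : E, @PConj E (variant E a) x y → x = y := fun x y h =>
      @eq_of_pConj E (variant E a) ⟨0⟩ (fun x y => congrArg E.mk (tab_zero _ _ _)) x y h
    rw [key x y hxy]
    exact hyz
  · intro ht
    have h1 : PConj (⟨5⟩ : E) ⟨6⟩ :=
      ⟨((⟨1⟩ : E) : WithOne E), ((⟨2⟩ : E) : WithOne E), fun _ => ⟨_, rfl⟩,
        fun _ => ⟨_, rfl⟩, rfl, rfl⟩
    have h2 : PConj (⟨6⟩ : E) ⟨7⟩ :=
      ⟨((⟨3⟩ : E) : WithOne E), ((⟨4⟩ : E) : WithOne E), fun _ => ⟨_, rfl⟩,
        fun _ => ⟨_, rfl⟩, rfl, rfl⟩
    have h57 : (⟨5⟩ : E) ≠ ⟨7⟩ := fun h => absurd (congrArg E.val h) (by decide)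
    obtain ⟨u, v, -, -, h4, h5⟩ := ht _ _ _ h1 h2
    cases u with
    | one =>
      rw [one_mul] at h4
      rw [mul_one] at h5
      exact h57 (WithOne.coe_injective (h4.trans h5.symm))
    | coe u =>
      cases v with
      | one =>
        rw [mul_one] at h4
        rw [one_mul] at h5
        exact h57 (WithOne.coe_injective (h4.trans h5.symm))
      | coe v =>
        have e1 : (5 : Fin 8) = tab u.val v.val := congrArg E.val (WithOne.coe_injective h4)
        have e2 : (7 : Fin 8) = tab v.val u.val := congrArg E.val (WithOne.coe_injective h5)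
        have : ∀ u v : Fin 8, ¬ ((5 : Fin 8) = tab u v ∧ (7 : Fin 8) = tab v u) := by
          decide +kernel
        exact this u.val v.val ⟨e1, e2⟩

end Pool.Agent.Results.MP_9df05e_al.NotInherited
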